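import Mathlib

/-!
Speed allocation in tandem flow lines: definitions.
-/

open MeasureTheory

namespace Pool.Agent.H0.Bowl

/-- The blocking regimes: unlimited buffers, manufacturing blocking, communications blocking. -/
inductive Regime where
  | unlimited : Regime
  | manufacturing : Regime
  | communications : Regime

/-- The right-hand side of the recursion for `D_{i,j}`, where `x = D_{i,j-1}`, `y = D_{i-1,j}`,
`z = D_{i-b-1,j+1}` and `t = T_{i,j}`. -/
noncomputable def step (R : Regime) (x y z t : ℝ) : ℝ :=
  match R with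
  | Regime.unlimited => max x y + t
  | Regime.manufacturing => max (max (x + t) (y + t)) z
  | Regime.communications => max (max x y) z + t

/-- The departure times of job `i + 1` from stations `0, 1, 2, ...`, when `H k` are those of the
earlier jobs `k ≤ i`, in a line with `m` stations and buffers of size `b`.  Here
`i - b = (i + 1) - b - 1` is truncated at `0`, terms with a zero index are `0`, and station `m` is
never blocked. -/
noncomputable def row (R : Regime) (b m : ℕ) (T H : ℕ → ℕ → ℝ) (i : ℕ) : ℕ → ℝ
  | 0 => 0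
  | j + 1 => step R (row R b m T H i j) (H i (j + 1))
      (if j + 1 = m then 0 else H (i - b) (j + 2)) (T (i + 1) (j + 1))

/-- The departure times `D_{k,j}` of the jobs `k ≤ i`, computed job by job. -/
noncomputable def table (R : Regime) (b m : ℕ) (T : ℕ → ℕ → ℝ) : ℕ → ℕ → ℕ → ℝ
  | 0 => fun _ _ => 0
  | i + 1 => fun k =>
      if k = i + 1 then row R b m T (table R b m T i) i else table R b m T i k

/-- `dep R b m T i j` is the time `D_{i,j}` at which job `i` leaves station `j` (both numbered from
`1`), where `T i j` is the occupation time of station `j` by job `i`. -/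
noncomputable def dep (R : Regime) (b m : ℕ) (T : ℕ → ℕ → ℝ) (i j : ℕ) : ℝ :=
  table R b m T i i j

/-- Occupation times `T_{i,j} = X_{i,j} / s_j` (indices from `1`), for a matrix `X` of works
and a vector `s` of speeds. -/
noncomputable def occ {n m : ℕ} (X : Fin n → Fin m → ℝ) (s : Fin m → ℝ) (i j : ℕ) : ℝ :=
  if h : i - 1 < n ∧ j - 1 < m then X ⟨i - 1, h.1⟩ ⟨j - 1, h.2⟩ / s ⟨j - 1, h.2⟩ else 0

/-- The makespan `D_{n,m}`. -/
noncomputable def makespan (R : Regime) (b : ℕ) {n m : ℕ} (X : Fin n → Fin m → ℝ)
    (s : Fin m → ℝ) : ℝ :=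
  dep R b m (occ X s) n m

/-- The expected makespan `F(s)` when the works `X_{i,j}` are i.i.d. with law `μ`. -/
noncomputable def F (R : Regime) (b n m : ℕ) (μ : Measure ℝ) (s : Fin m → ℝ) : ℝ :=
  ∫ X : Fin n → Fin m → ℝ, makespan R b X s ∂(Measure.pi fun _ => Measure.pi fun _ => μ)

/-- Allocations: positive speeds with sum `1`. -/
def IsAllocation {m : ℕ} (s : Fin m → ℝ) : Prop := (∀ j, 0 < s j) ∧ ∑ j, s j = 1

/-- Optimal allocations: minimisers of the expected makespan. -/
def IsOptimal (R : Regime) (b n m : ℕ) (μ : Measure ℝ) (s : Fin m → ℝ) : Prop :=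
  IsAllocation s ∧ ∀ s' : Fin m → ℝ, IsAllocation s' → F R b n m μ s ≤ F R b n m μ s'

/-- Bowl-shaped: symmetric, and `s_1 ≤ s_2 ≤ ... ≤ s_{⌈m/2⌉}` (positions counted from `0` in
`Fin m`, so that the last position in this chain is `⌈m/2⌉ - 1 = (m + 1) / 2 - 1`). -/
def IsBowl {m : ℕ} (s : Fin m → ℝ) : Prop :=
  (∀ j, s j = s j.rev) ∧ ∀ j k : Fin m, j ≤ k → (k : ℕ) < (m + 1) / 2 → s j ≤ s k

/-- The statement of the question: for all numbers of jobs and stations, every distribution of the
i.i.d. nonnegative processing times with finite mean, every regime and every buffer size (which is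
irrelevant for unlimited buffers), some optimal allocation is bowl-shaped. -/
def BowlStatement : Prop :=
  ∀ (n m : ℕ), 1 ≤ n → 1 ≤ m → ∀ (μ : Measure ℝ), IsProbabilityMeasure μ → μ (Set.Iio 0) = 0 →
    Integrable (fun x => x) μ → ∀ (R : Regime) (b : ℕ),
      ∃ s : Fin m → ℝ, IsOptimal R b n m μ s ∧ IsBowl s

end Pool.Agent.H0.Bowl
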