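import Pool.Agent.H0.Bowl.Defs

open MeasureTheory

namespace Pool.Agent.H0.Bowl

/-! ### The makespan of two jobs on three stations -/

/-- The regimes covered by the counterexample. -/
def Covered (R : Regime) (b : ℕ) : Prop := R = Regime.communications → 1 ≤ b

theorem dep_two_three (R : Regime) (b : ℕ) (hR : Covered R b) (T : ℕ → ℕ → ℝ)
    (hT : ∀ i j, 0 ≤ T i j) :
    dep R b 3 T 2 3 = T 1 1 + T 2 3 +
      max (max (T 2 1 + T 2 2) (T 1 2 + T 2 2)) (T 1 2 + T 1 3) := by
  have h11 := hT 1 1
  have h12 := hT 1 2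
  have h13 := hT 1 3
  have h21 := hT 2 1
  have h22 := hT 2 2
  have h23 := hT 2 3
  have e11 : dep R b 3 T 1 1 = T 1 1 := by
    cases R <;> simp [dep, table, row, step, h11]
  have e12 : dep R b 3 T 1 2 = T 1 1 + T 1 2 := by
    cases R <;> simp [dep, table, row, step, h11, h12, add_nonneg]
  have e13 : dep R b 3 T 1 3 = T 1 1 + T 1 2 + T 1 3 := by
    cases R <;> simp [dep, table, row, step, h11, h12, h13, add_nonneg]
  have r0 : ∀ j, table R b 3 T 1 0 j = 0 := by
    intro j; simp [table]
  have hsucc : ∀ j, dep R b 3 T 2 (j + 1) = step R (row R b 3 T (table R b 3 T 1) 1 j)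
      (dep R b 3 T 1 (j + 1)) (if j + 1 = 3 then 0 else table R b 3 T 1 (1 - b) (j + 2))
      (T 2 (j + 1)) := by
    intro j
    rfl
  have hrow : ∀ j, row R b 3 T (table R b 3 T 1) 1 j = dep R b 3 T 2 j := by
    intro j
    rfl
  have hz : ∀ j, table R b 3 T 1 (1 - b) j = if b = 0 then dep R b 3 T 1 j else 0 := by
    intro j
    split_ifs with h
    · subst h; rfl
    · have : 1 - b = 0 := by omega
      rw [this, r0]
  have e20 : dep R b 3 T 2 0 = 0 := rfl
  have e21 := hsucc 0
  have e22 := hsucc 1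
  have e23 := hsucc 2
  rw [hrow] at e21 e22 e23
  rw [hz] at e21 e22
  simp only [zero_add, Nat.reduceAdd, Nat.reduceEqDiff, if_true, if_false] at e21 e22 e23
  rw [e20, e11, e12] at e21
  rw [e12, e13] at e22
  rw [e13] at e23
  rw [e23, e22, e21]
  cases R with
  | unlimited =>
    simp only [step]
    rw [max_eq_right h11]
    simp only [max_def]
    split_ifs <;> linarith
  | manufacturing =>
    simp only [step]
    split_ifs with hb
    · simp only [max_def]
      split_ifs <;> linarith
    · simp only [max_def]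
      split_ifs <;> linarith
  | communications =>
    have hb : b ≠ 0 := by have := hR rfl; omega
    simp only [step, if_neg hb]
    rw [max_eq_right h11, max_eq_left h11]
    simp only [max_def]
    split_ifs <;> linarith

/-! ### The law of the works -/

/-- The seven values `100, 101, ..., 106`. -/
noncomputable def val (k : Fin 7) : ℝ := 100 + (k : ℕ)

/-- Uniform law on `Fin 7`. -/
noncomputable def unif : Measure (Fin 7) := (PMF.uniformOfFintype (Fin 7)).toMeasure

instance : IsProbabilityMeasure unif := by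
  unfold unif; infer_instance

/-- Uniform law on `{100, ..., 106}`. -/
noncomputable def law : Measure ℝ := unif.map val

theorem measurable_val : Measurable val := measurable_from_top

instance : IsProbabilityMeasure law := by
  unfold law; exact Measure.isProbabilityMeasure_map measurable_val.aemeasurable

theorem val_pos (k : Fin 7) : 0 < val k := by unfold val; positivity

theorem law_neg : law (Set.Iio 0) = 0 := by
  unfold law
  rw [Measure.map_apply measurable_val measurableSet_Iio]
  have : val ⁻¹' Set.Iio 0 = ∅ := by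
    ext k; simp only [Set.mem_preimage, Set.mem_Iio, Set.mem_empty_iff_false, iff_false, not_lt]
    exact (val_pos k).le
  rw [this]; simp

theorem law_int : Integrable (fun x : ℝ => x) law := by
  unfold law
  rw [integrable_map_measure (by fun_prop) measurable_val.aemeasurable]
  exact Integrable.of_finite

theorem pi_law : (Measure.pi fun _ : Fin 2 => Measure.pi fun _ : Fin 3 => law)
    = (Measure.pi fun _ : Fin 2 => Measure.pi fun _ : Fin 3 => unif).map
        (fun (w : Fin 2 → Fin 3 → Fin 7) i j => val (w i j)) := by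
  have h1 : (Measure.pi fun _ : Fin 3 => law)
      = (Measure.pi fun _ : Fin 3 => unif).map (fun (w : Fin 3 → Fin 7) j => val (w j)) := by
    have : ∀ i : Fin 3, SigmaFinite (Measure.map val unif) := fun _ => by
      have : IsProbabilityMeasure (Measure.map val unif) :=
        Measure.isProbabilityMeasure_map measurable_val.aemeasurable
      infer_instance
    rw [Measure.pi_map_pi (fun _ => measurable_val.aemeasurable)]
    rfl
  have hm : Measurable (fun (w : Fin 3 → Fin 7) j => val (w j)) := measurable_of_finite _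
  have : ∀ i : Fin 2, SigmaFinite (Measure.map (fun (w : Fin 3 → Fin 7) j => val (w j))
      (Measure.pi fun _ : Fin 3 => unif)) := fun _ => by
    have : IsProbabilityMeasure (Measure.map (fun (w : Fin 3 → Fin 7) j => val (w j))
      (Measure.pi fun _ : Fin 3 => unif)) :=
      Measure.isProbabilityMeasure_map hm.aemeasurable
    infer_instance
  rw [h1, Measure.pi_map_pi (fun _ => hm.aemeasurable)]

theorem emb : MeasurableEmbedding (fun (w : Fin 2 → Fin 3 → Fin 7) i j => val (w i j)) := by
  refine ⟨?_, measurable_of_finite _, fun s _ => (Set.toFinite _).measurableSet⟩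
  intro w w' h
  funext i j
  have := congrFun (congrFun h i) j
  simp only [val, add_right_inj, Nat.cast_inj] at this
  exact Fin.ext this

theorem integral_law (G : (Fin 2 → Fin 3 → ℝ) → ℝ) :
    ∫ X, G X ∂(Measure.pi fun _ : Fin 2 => Measure.pi fun _ : Fin 3 => law)
      = (1 / 7 : ℝ) ^ 6 * ∑ w : Fin 2 → Fin 3 → Fin 7, G (fun i j => val (w i j)) := by
  rw [pi_law, emb.integral_map, integral_fintype Integrable.of_finite, Finset.mul_sum]
  refine Finset.sum_congr rfl fun w _ => ?_
  have hu : ∀ k : Fin 7, unif {k} = (7 : ENNReal)⁻¹ := by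
    intro k
    unfold unif
    rw [PMF.toMeasure_apply_singleton _ _ (MeasurableSet.singleton k)]
    simp [PMF.uniformOfFintype_apply]
  have : (Measure.pi fun _ : Fin 2 => Measure.pi fun _ : Fin 3 => unif) {w}
      = ((7 : ENNReal)⁻¹) ^ 6 := by
    rw [Measure.pi_singleton]
    simp_rw [Measure.pi_singleton, hu]
    simp only [Finset.prod_const, Finset.card_univ, Fintype.card_fin]
    rw [← pow_mul]
  have key : (Measure.pi fun _ : Fin 2 => Measure.pi fun _ : Fin 3 => unif).real {w}
      = (1 / 7 : ℝ) ^ 6 := by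
    unfold Measure.real
    rw [this, ENNReal.toReal_pow, ENNReal.toReal_inv, ENNReal.toReal_ofNat, one_div]
  rw [key, smul_eq_mul]

/-- An array with two rows and three columns as a pair of triples. -/
def arr : (Fin 2 → Fin 3 → Fin 7) ≃ (Fin 7 × Fin 7 × Fin 7) × (Fin 7 × Fin 7 × Fin 7) where
  toFun := fun w => ((w 0 0, w 0 1, w 0 2), (w 1 0, w 1 1, w 1 2))
  invFun := fun p i j =>
    if i = 0 then (if j = 0 then p.1.1 else if j = 1 then p.1.2.1 else p.1.2.2)
    else (if j = 0 then p.2.1 else if j = 1 then p.2.2.1 else p.2.2.2)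
  left_inv := fun w => by
    funext i j
    rcases i with ⟨_ | _ | i, hi⟩
    · rcases j with ⟨_ | _ | _ | j, hj⟩
      · rfl
      · rfl
      · rfl
      · omega
    · rcases j with ⟨_ | _ | _ | j, hj⟩
      · rfl
      · rfl
      · rfl
      · omega
    · omega
  right_inv := fun p => rfl

/-! ### The expected makespan of a symmetric allocation -/

/-- The part of the makespan that depends on which path is critical. -/
noncomputable def crit (a b c d u v : ℝ) : ℝ :=
  max (max (c * u + d * v) (a * v + d * v)) (a * v + b * u)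

/-- The expected makespan, up to a constant factor, as a function of `u = 1/s_1 = 1/s_3` and
`v = 1/s_2`. -/
noncomputable def E (u v : ℝ) : ℝ :=
  ∑ p : (Fin 7 × Fin 7 × Fin 7) × (Fin 7 × Fin 7 × Fin 7),
    (val p.1.1 * u + val p.2.2.2 * u
      + crit (val p.1.2.1) (val p.1.2.2) (val p.2.1) (val p.2.2.1) u v)

theorem F_eq (R : Regime) (b : ℕ) (hR : Covered R b) (s : Fin 3 → ℝ) (hs : ∀ j, 0 < s j)
    (hsym : s 2 = s 0) :
    F R b 2 3 law s = (1 / 7 : ℝ) ^ 6 * E (s 0)⁻¹ (s 1)⁻¹ := by
  unfold F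
  rw [integral_law]
  refine congrArg (fun z => (1 / 7 : ℝ) ^ 6 * z) ?_
  unfold E
  refine Fintype.sum_equiv arr _ _ fun w => ?_
  have hpos : ∀ i j, 0 ≤ occ (fun i j => val (w i j)) s i j := by
    intro i j
    unfold occ
    split_ifs with h
    · exact div_nonneg (val_pos _).le (hs _).le
    · exact le_rfl
  rw [makespan, dep_two_three R b hR _ hpos]
  have e : ∀ (i j : ℕ) (hi : i < 2) (hj : j < 3),
      occ (fun i j => val (w i j)) s (i + 1) (j + 1) = val (w ⟨i, hi⟩ ⟨j, hj⟩) * (s ⟨j, hj⟩)⁻¹ := by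
    intro i j hi hj
    unfold occ
    rw [dif_pos ⟨by omega, by omega⟩]
    rfl
  have e11 := e 0 0 (by norm_num) (by norm_num)
  have e12 := e 0 1 (by norm_num) (by norm_num)
  have e13 := e 0 2 (by norm_num) (by norm_num)
  have e21 := e 1 0 (by norm_num) (by norm_num)
  have e22 := e 1 1 (by norm_num) (by norm_num)
  have e23 := e 1 2 (by norm_num) (by norm_num)
  simp only [Nat.reduceAdd, zero_add] at e11 e12 e13 e21 e22 e23
  rw [e11, e12, e13, e21, e22, e23]
  change val (w 0 0) * (s 0)⁻¹ + val (w 1 2) * (s 2)⁻¹ +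
    max (max (val (w 1 0) * (s 0)⁻¹ + val (w 1 1) * (s 1)⁻¹)
      (val (w 0 1) * (s 1)⁻¹ + val (w 1 1) * (s 1)⁻¹))
      (val (w 0 1) * (s 1)⁻¹ + val (w 0 2) * (s 2)⁻¹)
    = val (w 0 0) * (s 0)⁻¹ + val (w 1 2) * (s 0)⁻¹
      + max (max (val (w 1 0) * (s 0)⁻¹ + val (w 1 1) * (s 1)⁻¹)
      (val (w 0 1) * (s 1)⁻¹ + val (w 1 1) * (s 1)⁻¹))
      (val (w 0 1) * (s 1)⁻¹ + val (w 0 2) * (s 0)⁻¹)
  rw [hsym]

/-- `crit` is monotone and sublinear in `(u, v)`. -/
theorem crit_convex {a b c d : ℝ} (ha : 0 ≤ a) (hb : 0 ≤ b) (hc : 0 ≤ c) (hd : 0 ≤ d)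
    {l m u v u1 v1 u2 v2 : ℝ} (hl : 0 ≤ l) (hm : 0 ≤ m) (hu : u ≤ l * u1 + m * u2)
    (hv : v ≤ l * v1 + m * v2) :
    crit a b c d u v ≤ l * crit a b c d u1 v1 + m * crit a b c d u2 v2 := by
  have g1 : c * u1 + d * v1 ≤ crit a b c d u1 v1 :=
    le_trans (le_max_left _ _) (le_max_left _ _)
  have g2 : a * v1 + d * v1 ≤ crit a b c d u1 v1 :=
    le_trans (le_max_right _ _) (le_max_left _ _)
  have g3 : a * v1 + b * u1 ≤ crit a b c d u1 v1 := le_max_right _ _
  have k1 : c * u2 + d * v2 ≤ crit a b c d u2 v2 :=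
    le_trans (le_max_left _ _) (le_max_left _ _)
  have k2 : a * v2 + d * v2 ≤ crit a b c d u2 v2 :=
    le_trans (le_max_right _ _) (le_max_left _ _)
  have k3 : a * v2 + b * u2 ≤ crit a b c d u2 v2 := le_max_right _ _
  have au := mul_le_mul_of_nonneg_left hu ha
  have av := mul_le_mul_of_nonneg_left hv ha
  have bu := mul_le_mul_of_nonneg_left hu hb
  have cu := mul_le_mul_of_nonneg_left hu hc
  have dv := mul_le_mul_of_nonneg_left hv hd
  have l1 := mul_le_mul_of_nonneg_left g1 hl
  have l2 := mul_le_mul_of_nonneg_left g2 hl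
  have l3 := mul_le_mul_of_nonneg_left g3 hl
  have m1 := mul_le_mul_of_nonneg_left k1 hm
  have m2 := mul_le_mul_of_nonneg_left k2 hm
  have m3 := mul_le_mul_of_nonneg_left k3 hm
  unfold crit at *
  refine max_le (max_le ?_ ?_) ?_ <;> nlinarith

theorem E_convex {l m u v u1 v1 u2 v2 : ℝ} (hl : 0 ≤ l) (hm : 0 ≤ m)
    (hu : u ≤ l * u1 + m * u2) (hv : v ≤ l * v1 + m * v2) :
    E u v ≤ l * E u1 v1 + m * E u2 v2 := by
  unfold E
  rw [Finset.mul_sum, Finset.mul_sum, ← Finset.sum_add_distrib]
  refine Finset.sum_le_sum fun p _ => ?_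
  have h1 := crit_convex (val_pos p.1.2.1).le (val_pos p.1.2.2).le (val_pos p.2.1).le
    (val_pos p.2.2.1).le hl hm hu hv
  have h2 := mul_le_mul_of_nonneg_left hu (val_pos p.1.1).le
  have h3 := mul_le_mul_of_nonneg_left hu (val_pos p.2.2.2).le
  nlinarith

/-- Reduction of `E` to a fourfold sum. -/
theorem E_eq (u v : ℝ) :
    E u v = 49 * (2401 * 2 * 103 * u
      + ∑ a : Fin 7, ∑ b : Fin 7, ∑ c : Fin 7, ∑ d : Fin 7,
          crit (val a) (val b) (val c) (val d) u v) := by
  have hval : ∑ k : Fin 7, val k = 7 * 103 := by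
    simp [val, Fin.sum_univ_succ]; norm_num
  unfold E
  rw [Fintype.sum_prod_type]
  simp_rw [Fintype.sum_prod_type]
  simp only [Finset.sum_add_distrib, Finset.sum_const, Finset.card_univ, Fintype.card_fin,
    nsmul_eq_mul, ← Finset.mul_sum, ← Finset.sum_mul, hval]
  push_cast
  ring

theorem S0 : (∑ a : Fin 7, ∑ b : Fin 7, ∑ c : Fin 7, ∑ d : Fin 7,
    max (max ((100 + c.val) + (100 + d.val)) ((100 + a.val) + (100 + d.val)))
      ((100 + a.val) + (100 + b.val))) = 499282 := by decide +kernel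

theorem S1 : (∑ a : Fin 7, ∑ b : Fin 7, ∑ c : Fin 7, ∑ d : Fin 7,
    max (max ((100 + c.val) * 998 + (100 + d.val) * 1001)
        ((100 + a.val) * 1001 + (100 + d.val) * 1001))
      ((100 + a.val) * 1001 + (100 + b.val) * 998)) = 499274825 := by decide +kernel

theorem crit_smul (a b c d t u v : ℝ) (ht : 0 ≤ t) :
    crit a b c d (t * u) (t * v) = t * crit a b c d u v := by
  unfold crit
  rw [mul_max_of_nonneg _ _ ht, mul_max_of_nonneg _ _ ht]
  congr 1
  · congr 1 <;> ring
  · ring

theorem sum_S0 : (∑ a : Fin 7, ∑ b : Fin 7, ∑ c : Fin 7, ∑ d : Fin 7,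
    crit (val a) (val b) (val c) (val d) 1 1) = 499282 := by
  have h := congrArg (fun n : ℕ => (n : ℝ)) S0
  simp only [Nat.cast_sum, Nat.cast_max, Nat.cast_add, Nat.cast_ofNat] at h
  rw [← h]
  simp only [crit, val, mul_one]

theorem sum_S1 : (∑ a : Fin 7, ∑ b : Fin 7, ∑ c : Fin 7, ∑ d : Fin 7,
    crit (val a) (val b) (val c) (val d) 998 1001) = 499274825 := by
  have h := congrArg (fun n : ℕ => (n : ℝ)) S1
  simp only [Nat.cast_sum, Nat.cast_max, Nat.cast_add, Nat.cast_mul, Nat.cast_ofNat] at h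
  rw [← h]
  simp only [crit, val]

theorem E_lt : E (3000 / 1001) (3000 / 998) < E 3 3 := by
  have g0 : (∑ a : Fin 7, ∑ b : Fin 7, ∑ c : Fin 7, ∑ d : Fin 7,
      crit (val a) (val b) (val c) (val d) 3 3) = 3 * 499282 := by
    rw [← sum_S0]
    simp only [Finset.mul_sum]
    refine Finset.sum_congr rfl fun a _ => Finset.sum_congr rfl fun b _ =>
      Finset.sum_congr rfl fun c _ => Finset.sum_congr rfl fun d _ => ?_
    rw [← crit_smul _ _ _ _ _ _ _ (by norm_num), mul_one]
  have h0 : E 3 3 = 49 * (2401 * 2 * 103 * 3 + 3 * 499282) := by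
    rw [E_eq, g0]
  have g1 : (∑ a : Fin 7, ∑ b : Fin 7, ∑ c : Fin 7, ∑ d : Fin 7,
      crit (val a) (val b) (val c) (val d) (3000 / 1001) (3000 / 998))
        = 3000 / (1001 * 998) * 499274825 := by
    rw [← sum_S1]
    simp only [Finset.mul_sum]
    refine Finset.sum_congr rfl fun a _ => Finset.sum_congr rfl fun b _ =>
      Finset.sum_congr rfl fun c _ => Finset.sum_congr rfl fun d _ => ?_
    rw [← crit_smul _ _ _ _ _ _ _ (by norm_num)]
    norm_num
  have h1 : E (3000 / 1001) (3000 / 998) =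
      49 * (2401 * 2 * 103 * (3000 / 1001) + 3000 / (1001 * 998) * 499274825) := by
    rw [E_eq, g1]
  rw [h0, h1]
  norm_num

theorem inv_le_mix {l m x y z : ℝ} (hl : 0 ≤ l) (hm : 0 ≤ m) (hlm : l + m = 1) (hy : 0 < y)
    (hz : 0 < z) (hx : x = l * y + m * z) : x⁻¹ ≤ l * y⁻¹ + m * z⁻¹ := by
  have hxp : 0 < x := by
    rw [hx]
    rcases hl.eq_or_lt with h | h
    · have : m = 1 := by linarith
      rw [← h, this]; linarith
    · have := mul_pos h hy
      have := mul_nonneg hm hz.le
      linarith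
  rw [← sub_nonneg]
  have : l * y⁻¹ + m * z⁻¹ - x⁻¹ = l * m * (y - z) ^ 2 / (x * y * z) := by
    have hl' : l = 1 - m := by linarith
    field_simp
    rw [hx, hl']
    ring
  rw [this]
  positivity

/-- The allocation `(1001, 998, 1001) / 3000`. -/
noncomputable def better : Fin 3 → ℝ := ![1001 / 3000, 998 / 3000, 1001 / 3000]

theorem better_pos : ∀ j, 0 < better j := by
  intro j; fin_cases j <;> simp [better]

theorem better_alloc : IsAllocation better := ⟨better_pos, by
  rw [Fin.sum_univ_three]; simp [better]; norm_num⟩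

/-- Every bowl-shaped allocation is beaten by `better`, for two jobs, three stations and the
law `law`. -/
theorem bowl_beaten (R : Regime) (b : ℕ) (hR : Covered R b) (s : Fin 3 → ℝ)
    (hs : IsAllocation s) (hb : IsBowl s) : F R b 2 3 law better < F R b 2 3 law s := by
  by_contra hcon
  have h1 : F R b 2 3 law s ≤ F R b 2 3 law better := not_lt.mp hcon
  obtain ⟨hsym, hmono⟩ := hb
  obtain ⟨hpos, hsum⟩ := hs
  have h20 : s 2 = s 0 := (hsym 2).trans rfl
  have h01 : s 0 ≤ s 1 := hmono 0 1 (by decide) (by decide)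
  rw [Fin.sum_univ_three, h20] at hsum
  have hp0 := hpos 0
  have hp1 := hpos 1
  rw [F_eq R b hR s hpos h20, F_eq R b hR better better_pos rfl] at h1
  have h2 : E (s 0)⁻¹ (s 1)⁻¹ ≤ E (3000 / 1001) (3000 / 998) := by
    have : E (better 0)⁻¹ (better 1)⁻¹ = E (3000 / 1001) (3000 / 998) := by
      simp [better]
    rw [this] at h1
    exact le_of_mul_le_mul_left h1 (by norm_num)
  -- the point (1/3, 1/3, 1/3) lies between s and t
  have hs1 : s 1 = 1 - 2 * s 0 := by linarith
  have hle : s 0 ≤ 1 / 3 := by linarith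
  set x := s 0 with hx
  have hden : 0 < 1001 / 3000 - x := by linarith
  set l : ℝ := (1 / 3000) / (1001 / 3000 - x) with hl
  have hl0 : 0 < l := div_pos (by norm_num) hden
  have hl1 : l ≤ 1 := by
    rw [hl, div_le_one hden]; linarith
  have hm0 : 0 ≤ 1 - l := by linarith
  have hlm : l * (1001 / 3000 - x) = 1 / 3000 := div_mul_cancel₀ _ hden.ne'
  have hmix : (1 / 3 : ℝ) = l * x + (1 - l) * (1001 / 3000) := by
    linear_combination hlm
  have hmix' : (1 / 3 : ℝ) = l * (1 - 2 * x) + (1 - l) * (998 / 3000) := by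
    linear_combination (-2) * hlm
  have hu := inv_le_mix hl0.le hm0 (by ring) hp0 (by norm_num) hmix
  have hv := inv_le_mix hl0.le hm0 (by ring) (by linarith) (by norm_num) hmix'
  rw [one_div, inv_inv, inv_div] at hu hv
  have hconv := E_convex hl0.le hm0 hu hv
  rw [hs1] at h2
  have hlt := E_lt
  have g1 := mul_le_mul_of_nonneg_left h2 hl0.le
  linarith

end Pool.Agent.H0.Bowl
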